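import Pool.Agent.helper48.PR.SpecL

/-!
# Project pr, module LTRP
-/

set_option autoImplicit false

namespace Pool.Agent.PR

open Matrix

theorem LTRP_fg (n : ℕ) : Group.FG (SLZ n) := by
  rw [Group.fg_iff]
  refine ⟨Set.range (fun p : {p : Fin n × Fin n // p.1 ≠ p.2} => (el p.1.1 p.1.2 p.2 1 : SLZ n)), ?_,
    Set.finite_range _⟩
  apply el_gen
  intro i j h
  exact Subgroup.subset_closure ⟨⟨(i, j), h⟩, rfl⟩

theorem LTRP_symm {n : ℕ} {R : Type} [CommRing R] {m : ℕ} {A B : Matrix (Fin n) (Fin n) R}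
    (h : MC m A B) : MC m B A := by
  intro i j
  have h1 := h i j
  rw [← dvd_neg, neg_sub] at h1
  exact h1

theorem LTRP_unit (q : ℕ) [Fact q.Prime] (m : ℕ) (h : ¬ q ∣ m) : IsUnit (m : ℤ_[q]) := by
  rw [PadicInt.isUnit_iff]
  have h1 : (m : ℤ_[q]) = ((m : ℤ) : ℤ_[q]) := by push_cast; rfl
  have h2 : ‖(m : ℤ_[q])‖ ≤ 1 := PadicInt.norm_le_one _
  rcases lt_or_eq_of_le h2 with h3 | h3
  · exfalso
    rw [h1, PadicInt.norm_int_lt_one_iff_dvd] at h3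
    exact h (by exact_mod_cast h3)
  · exact h3

theorem LTRP_fin (m : ℕ) (hm : m ≠ 0) : {q : Nat.Primes | (q : ℕ) ∣ m}.Finite := by
  apply Set.Finite.of_finite_image (f := fun q : Nat.Primes => (q : ℕ))
  · apply Set.Finite.subset (Finset.finite_toSet m.divisors)
    rintro _ ⟨q, hq, rfl⟩
    simp only [Finset.mem_coe, Nat.mem_divisors]
    exact ⟨hq, hm⟩
  · intro a _ b _ hab
    exact Subtype.ext hab

theorem LTRP (hTR : TR_stmt) (hTOP : LTOP_stmt) : LTRP_stmt := by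
  intro n hn Λ _ hQL Q _ _ π f
  let _ : TopologicalSpace Q := ⊥
  have _ : DiscreteTopology Q := ⟨rfl⟩
  have hc : ∀ q : Nat.Primes, CompactSpace (GL (Fin n) ℤ_[(q : ℕ)]) := fun q => (hTOP n q).1
  have ht : ∀ q : Nat.Primes, TotallyDisconnectedSpace (GL (Fin n) ℤ_[(q : ℕ)]) :=
    fun q => (hTOP n q).2.1
  obtain ⟨G, hG⟩ := hTR (SLZ n) Λ (LTRP_fg n) hQL (Q × ∀ q : Nat.Primes, GL (Fin n) ℤ_[(q : ℕ)])
    (MonoidHom.prod π (MonoidHom.pi f))
  have hopen : ∀ m : ℕ, m ≠ 0 → ∀ (x₀ : Q) (B : ∀ q : Nat.Primes, GL (Fin n) ℤ_[(q : ℕ)]),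
      IsOpen {p : Q × ∀ q : Nat.Primes, GL (Fin n) ℤ_[(q : ℕ)] | p.1 = x₀ ∧
        ∀ q : Nat.Primes, MC m (p.2 q : Matrix (Fin n) (Fin n) ℤ_[(q : ℕ)]) (B q)} := by
    intro m hm x₀ B
    have h1 : IsOpen ((Prod.fst : Q × (∀ q : Nat.Primes, GL (Fin n) ℤ_[(q : ℕ)]) → Q) ⁻¹' {x₀}) :=
      (isOpen_discrete _).preimage continuous_fst
    have h2 : IsOpen ((Prod.snd : Q × (∀ q : Nat.Primes, GL (Fin n) ℤ_[(q : ℕ)]) → _) ⁻¹'
        (Set.pi {q : Nat.Primes | (q : ℕ) ∣ m}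
          (fun q => {A : GL (Fin n) ℤ_[(q : ℕ)] |
            MC m (A : Matrix (Fin n) (Fin n) ℤ_[(q : ℕ)]) (B q)}))) := by
      refine IsOpen.preimage continuous_snd ?_
      exact isOpen_set_pi (LTRP_fin m hm) (fun q _ => (hTOP n q).2.2 m hm (B q))
    have h3 : {p : Q × ∀ q : Nat.Primes, GL (Fin n) ℤ_[(q : ℕ)] | p.1 = x₀ ∧
        ∀ q : Nat.Primes, MC m (p.2 q : Matrix (Fin n) (Fin n) ℤ_[(q : ℕ)]) (B q)} =
        ((Prod.fst : Q × (∀ q : Nat.Primes, GL (Fin n) ℤ_[(q : ℕ)]) → Q) ⁻¹' {x₀}) ∩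
        ((Prod.snd : Q × (∀ q : Nat.Primes, GL (Fin n) ℤ_[(q : ℕ)]) → _) ⁻¹'
        (Set.pi {q : Nat.Primes | (q : ℕ) ∣ m}
          (fun q => {A : GL (Fin n) ℤ_[(q : ℕ)] |
            MC m (A : Matrix (Fin n) (Fin n) ℤ_[(q : ℕ)]) (B q)}))) := by
      ext p
      simp only [Set.mem_setOf_eq, Set.mem_inter_iff, Set.mem_preimage, Set.mem_singleton_iff,
        Set.mem_pi]
      constructor
      · rintro ⟨ha, hb⟩
        exact ⟨ha, fun q _ => hb q⟩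
      · rintro ⟨ha, hb⟩
        refine ⟨ha, fun q => ?_⟩
        by_cases hq : (q : ℕ) ∣ m
        · exact hb q hq
        · intro i j
          exact (LTRP_unit q m hq).dvd
    rw [h3]
    exact h1.inter h2
  refine ⟨(MonoidHom.fst _ _).comp G,
    fun q => (Pi.evalMonoidHom _ q).comp ((MonoidHom.snd _ _).comp G), ?_, ?_⟩
  · intro m hm l
    have h1 : (MonoidHom.prod π (MonoidHom.pi f)) l ∈ closure (Set.range G) := by
      rw [hG]
      exact subset_closure ⟨l, rfl⟩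
    rw [mem_closure_iff] at h1
    obtain ⟨p, hp1, γ, rfl⟩ := h1 _ (hopen m hm (π l) (fun q => f q l))
      ⟨rfl, fun q i j => by
        show _ ∣ (f q l : Matrix (Fin n) (Fin n) ℤ_[(q : ℕ)]) i j -
          (f q l : Matrix (Fin n) (Fin n) ℤ_[(q : ℕ)]) i j
        rw [sub_self]
        exact dvd_zero _⟩
    exact ⟨γ, hp1.1, fun q => LTRP_symm (hp1.2 q)⟩
  · intro m hm γ
    have h1 : G γ ∈ closure (Set.range (MonoidHom.prod π (MonoidHom.pi f))) := by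
      rw [← hG]
      exact subset_closure ⟨γ, rfl⟩
    rw [mem_closure_iff] at h1
    obtain ⟨p, hp1, l, rfl⟩ := h1 _ (hopen m hm (G γ).1 (fun q => (G γ).2 q))
      ⟨rfl, fun q i j => by
        rw [sub_self]
        exact dvd_zero _⟩
    exact ⟨l, hp1.1, fun q => LTRP_symm (hp1.2 q)⟩

end Pool.Agent.PR
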