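import Pool.Agent.helper5.PR.SpecM

set_option autoImplicit false

namespace Pool.Agent.PR

open Matrix

theorem M_COR_ex (m : ℤ) (a b : ℤ) (h : Adm m a b) :
    ∃ g : SL2, G2 m g ∧ g.1 0 0 = a ∧ g.1 0 1 = b := by
  obtain ⟨⟨x, hx⟩, ⟨y, hy⟩, ⟨u, v, huv⟩⟩ := h
  have hdet : (!![a, b; (-v) * (1 - a), u + v * b] : Matrix (Fin 2) (Fin 2) ℤ).det = 1 := by
    rw [Matrix.det_fin_two_of]
    linear_combination huv
  refine ⟨⟨!![a, b; (-v) * (1 - a), u + v * b], hdet⟩, ?_, ?_, ?_⟩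
  · unfold G2
    simp only [Matrix.of_apply, Matrix.cons_val', Matrix.cons_val_zero, Matrix.cons_val_one,
      Matrix.cons_val_fin_one]
    refine ⟨⟨x, hx⟩, ⟨y, hy⟩, ⟨v * x, ?_⟩, ⟨-u * x, ?_⟩⟩
    · linear_combination v * hx
    · linear_combination (-u) * hx + huv
  · simp
  · simp

theorem M_COR_adm (m : ℤ) (g : SL2) (h : G2 m g) : Adm m (g.1 0 0) (g.1 0 1) := by
  refine ⟨h.1, h.2.1, ⟨g.1 1 1, -(g.1 1 0), ?_⟩⟩
  have hd := g.2
  rw [Matrix.det_fin_two] at hd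
  linear_combination hd

theorem M_COR (hCEN : M_CEN_stmt) (hWD : M_WD_stmt) (hMB : M_MB_stmt) (hMA : M_MA_stmt)
    (hTRC : M_TRC_stmt) : M_COR_stmt := by
  classical
  intro m hm N hN g hg
  have : N.Normal := hN.1
  let hCG : CommGroup (Subgroup.center (SL3 ⧸ N)) :=
    { (inferInstance : Group (Subgroup.center (SL3 ⧸ N))) with
      mul_comm := fun a b => Subtype.ext (((Subgroup.mem_center_iff.1 b.2 a))) }
  let χ : ℤ → ℤ → Subgroup.center (SL3 ⧸ N) := fun b a =>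
    if h : Adm (m : ℤ) a b then
      ⟨QuotientGroup.mk' N (cn12 (M_COR_ex m a b h).choose),
        (hCEN m hm N hN _ (M_COR_ex m a b h).choose_spec.1).1⟩
    else 1
  have key : ∀ g : SL2, G2 (m : ℤ) g → ((χ (g.1 0 1) (g.1 0 0) : Subgroup.center (SL3 ⧸ N)) : SL3 ⧸ N) =
      QuotientGroup.mk' N (cn12 g) := by
    intro g hg
    have ha := M_COR_adm m g hg
    have e : χ (g.1 0 1) (g.1 0 0) = ⟨QuotientGroup.mk' N (cn12 (M_COR_ex m _ _ ha).choose),
        (hCEN m hm N hN _ (M_COR_ex m _ _ ha).choose_spec.1).1⟩ := dif_pos ha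
    rw [e]
    exact hWD m hm N hN g _ hg (M_COR_ex m _ _ ha).choose_spec.1
      (Or.inl ⟨(M_COR_ex m _ _ ha).choose_spec.2.1, (M_COR_ex m _ _ ha).choose_spec.2.2⟩)
  have key' : ∀ (a b : ℤ) (g : SL2), G2 (m : ℤ) g → g.1 0 0 = a → g.1 0 1 = b →
      ((χ b a : Subgroup.center (SL3 ⧸ N)) : SL3 ⧸ N) = QuotientGroup.mk' N (cn12 g) := by
    intro a b g hg h1 h2
    rw [← h1, ← h2]
    exact key g hg
  have hM : MSym (m : ℤ) χ := by
    constructor
    · intro a b t h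
      have h' : Adm (m : ℤ) a (b + m * t * a) := by
        refine ⟨h.1, ?_, ?_⟩
        · exact dvd_add h.2.1 (Dvd.intro (t * a) (by ring))
        · have := IsCoprime.add_mul_left_right h.2.2 ((m : ℤ) * t)
          rwa [show b + a * ((m : ℤ) * t) = b + m * t * a by ring] at this
      obtain ⟨g1, k1, k2, k3⟩ := M_COR_ex m a b h
      obtain ⟨g2, l1, l2, l3⟩ := M_COR_ex m _ _ h'
      apply Subtype.ext
      rw [key' _ _ g1 k1 k2 k3, key' _ _ g2 l1 l2 l3]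
      exact hWD m hm N hN g1 g2 k1 l1 (Or.inr (Or.inl ⟨t, by rw [l2, k2], by rw [l3, k3, k2]⟩))
    · intro a b t h
      have h' : Adm (m : ℤ) (a + t * b) b := by
        refine ⟨?_, h.2.1, ?_⟩
        · obtain ⟨x, hx⟩ := h.1
          obtain ⟨y, hy⟩ := h.2.1
          exact ⟨x + t * y, by rw [hy]; linear_combination hx⟩
        · have := IsCoprime.add_mul_right_left h.2.2 t
          exact this
      obtain ⟨g1, k1, k2, k3⟩ := M_COR_ex m a b h
      obtain ⟨g2, l1, l2, l3⟩ := M_COR_ex m _ _ h'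
      apply Subtype.ext
      rw [key' _ _ g1 k1 k2 k3, key' _ _ g2 l1 l2 l3]
      exact hWD m hm N hN g1 g2 k1 l1
        (Or.inr (Or.inr (Or.inl ⟨t, by rw [l2, k2, k3], by rw [l3, k3]⟩)))
    · intro a b b' h h'
      have h'' : Adm (m : ℤ) a (b * b') :=
        ⟨h.1, Dvd.dvd.mul_right h.2.1 b', IsCoprime.mul_right h.2.2 h'.2.2⟩
      obtain ⟨g1, k1, k2, k3⟩ := M_COR_ex m a b h
      obtain ⟨g2, l1, l2, l3⟩ := M_COR_ex m _ _ h'
      obtain ⟨g3, n1, n2, n3⟩ := M_COR_ex m _ _ h''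
      apply Subtype.ext
      rw [Subgroup.coe_mul, key' _ _ g1 k1 k2 k3, key' _ _ g2 l1 l2 l3, key' _ _ g3 n1 n2 n3]
      exact hMB m hm N hN g1 g2 g3 k1 l1 n1 (by rw [l2, k2]) (by rw [n2, k2]) (by rw [n3, k3, l3])
    · intro a a' b h h'
      have h'' : Adm (m : ℤ) (a * a') b := by
        refine ⟨?_, h.2.1, IsCoprime.mul_left h.2.2 h'.2.2⟩
        obtain ⟨x, hx⟩ := h.1
        obtain ⟨y, hy⟩ := h'.1
        exact ⟨x * a' + y, by linear_combination a' * hx + hy⟩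
      obtain ⟨g1, k1, k2, k3⟩ := M_COR_ex m a b h
      obtain ⟨g2, l1, l2, l3⟩ := M_COR_ex m _ _ h'
      obtain ⟨g3, n1, n2, n3⟩ := M_COR_ex m _ _ h''
      apply Subtype.ext
      rw [Subgroup.coe_mul, key' _ _ g1 k1 k2 k3, key' _ _ g2 l1 l2 l3, key' _ _ g3 n1 n2 n3]
      exact hMA m hm N hN g1 g2 g3 k1 l1 n1 (by rw [l3, k3]) (by rw [n3, k3]) (by rw [n2, k2, l2])
    · intro b hb
      obtain ⟨t, ht⟩ := hb
      have h1 : Adm (m : ℤ) 1 b := ⟨by simp, ⟨t, ht⟩, isCoprime_one_left⟩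
      obtain ⟨g2, l1, l2, l3⟩ := M_COR_ex m 1 b h1
      apply Subtype.ext
      rw [key' _ _ g2 l1 l2 l3]
      have hg1 : G2 (m : ℤ) (1 : SL2) := by
        unfold G2
        simp
      have h3 := hWD m hm N hN 1 g2 hg1 l1
        (Or.inr (Or.inl ⟨t, by rw [l2]; simp, by rw [l3, ht]; simp⟩))
      rw [h3]
      have h4 : cn12 1 = 1 := by
        apply Subtype.ext
        ext i j
        fin_cases i <;> fin_cases j <;> simp [cn12]
      rw [h4, map_one]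
      rfl
    · intro a b h
      have h' : Adm (m : ℤ) a (-b) := ⟨h.1, (dvd_neg).2 h.2.1, h.2.2.neg_right⟩
      obtain ⟨g1, k1, k2, k3⟩ := M_COR_ex m a b h
      obtain ⟨g2, l1, l2, l3⟩ := M_COR_ex m _ _ h'
      apply Subtype.ext
      rw [key' _ _ g1 k1 k2 k3, key' _ _ g2 l1 l2 l3]
      exact hWD m hm N hN g1 g2 k1 l1
        (Or.inr (Or.inr (Or.inr ⟨by rw [l2, k2], by rw [l3, k3]⟩)))
  have hfin := hTRC m (by exact_mod_cast hm) (Subgroup.center (SL3 ⧸ N)) χ hM (g.1 0 0) (g.1 0 1) (M_COR_adm m g hg)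
  have h5 := key g hg
  rw [hfin] at h5
  have h6 : QuotientGroup.mk' N (cn12 g) = 1 := h5.symm
  rwa [QuotientGroup.mk'_apply, QuotientGroup.eq_one_iff] at h6

end Pool.Agent.PR
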