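import Pool.Agent.helper17.PR.SpecN

/-!
# Project pr, module N_K4
-/

set_option autoImplicit false

namespace Pool.Agent.PR

open Module
open scoped commutatorElement

theorem N_K4_pow {P : Type} [Group P] (x y z : P) (hz : x * y * x⁻¹ * y⁻¹ = z)
    (hzx : z * x = x * z) (k : ℕ) :
    x ^ k * y * (x ^ k)⁻¹ * y⁻¹ = z ^ k := by
  have h1 : x * y = z * y * x := by
    rw [← hz]
    group
  have hc : ∀ j : ℕ, z ^ j * x = x * z ^ j := fun j => (Commute.pow_left hzx j)
  have h2 : x ^ k * y = z ^ k * y * x ^ k := by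
    induction k with
    | zero => simp
    | succ k ih =>
      calc x ^ (k + 1) * y = x * (x ^ k * y) := by rw [pow_succ', mul_assoc]
        _ = x * (z ^ k * y * x ^ k) := by rw [ih]
        _ = (x * z ^ k) * y * x ^ k := by simp only [mul_assoc]
        _ = (z ^ k * x) * y * x ^ k := by rw [hc k]
        _ = z ^ k * (x * y) * x ^ k := by simp only [mul_assoc]
        _ = z ^ k * (z * y * x) * x ^ k := by rw [h1]
        _ = z ^ (k + 1) * y * x ^ (k + 1) := by
          rw [pow_succ, pow_succ']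
          simp only [mul_assoc]
  rw [h2]
  group

theorem N_K4_inv {K V : Type} [Field K] [AddCommGroup V] [Module K V] (A N : Module.End K V)
    (h : A * N = N * A) (j : ℕ) :
    (LinearMap.range (N ^ j)).map A ≤ LinearMap.range (N ^ j) := by
  rintro _ ⟨_, ⟨v, rfl⟩, rfl⟩
  have h1 : A * N ^ j = N ^ j * A := Commute.pow_right h j
  refine ⟨A v, ?_⟩
  have h2 := congrArg (fun f : Module.End K V => f v) h1
  exact h2.symm

theorem N_K4 (hKA : N_KA_stmt) (hKB : N_KB_stmt) (hKC : N_KC_stmt) (hCEN : N_CEN_stmt) :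
    N_K4_stmt := by
  intro K V _ _ _ _ _ _ P _ hdim htf h1 h2 ρ hρ
  -- a nontrivial commutator
  have hex : ∃ x y : P, x * y * x⁻¹ * y⁻¹ ≠ 1 := by
    by_contra hcon
    push Not at hcon
    apply h1
    rw [Subgroup.lowerCentralSeries_succ, Subgroup.lowerCentralSeries_zero, eq_bot_iff,
      Subgroup.commutator_le]
    intro g _ g' _
    rw [Subgroup.mem_bot, commutatorElement_def]
    exact hcon g g'
  obtain ⟨x₀, y, hz0⟩ := hex
  set z₀ := x₀ * y * x₀⁻¹ * y⁻¹ with hz₀
  have hmem : z₀ ∈ (⊤ : Subgroup P).lowerCentralSeries 1 := by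
    rw [Subgroup.lowerCentralSeries_succ, Subgroup.lowerCentralSeries_zero]
    exact Subgroup.commutator_mem_commutator (Subgroup.mem_top x₀) (Subgroup.mem_top y)
  have hcen : ∀ g : P, z₀ * g = g * z₀ := by
    intro g
    have h3 : ⁅z₀, g⁆ ∈ (⊤ : Subgroup P).lowerCentralSeries 2 := by
      rw [Subgroup.lowerCentralSeries_succ]
      exact Subgroup.commutator_mem_commutator hmem (Subgroup.mem_top g)
    rw [h2, Subgroup.mem_bot] at h3
    exact commutatorElement_eq_one_iff_mul_comm.mp h3
  set k := (finrank K V).factorial with hk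
  have hkpos : 0 < k := Nat.factorial_pos _
  set x := x₀ ^ k with hx
  set z := z₀ ^ k with hz
  have hzc : ∀ g : P, z * g = g * z := fun g => Commute.pow_left (hcen g) k
  have hzne : z ≠ 1 := htf z₀ hz0 k hkpos
  have hzxy : x * y * x⁻¹ * y⁻¹ = z := N_K4_pow x₀ y z₀ rfl (hcen x₀) k
  have hxy : x * y = z * y * x := by
    rw [← hzxy]
    group
  -- unipotent
  have hnil : IsNilpotent (ρ z - 1) := by
    have h3 := hKC K V (ρ x₀) (ρ y) (ρ x₀⁻¹) (ρ y⁻¹) (ρ z₀)
      (by rw [← map_mul, mul_inv_cancel, map_one]) (by rw [← map_mul, inv_mul_cancel, map_one])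
      (by rw [← map_mul, mul_inv_cancel, map_one]) (by rw [← map_mul, inv_mul_cancel, map_one])
      (by rw [← map_mul, ← map_mul, ← map_mul]) (by rw [← map_mul, ← map_mul, hcen])
      (by rw [← map_mul, ← map_mul, hcen])
    rw [← map_pow] at h3
    exact h3
  set N : Module.End K V := ρ z - 1 with hN
  have hρz : ρ z = 1 + N := by
    rw [hN]
    abel
  have hNne : N ≠ 0 := by
    intro h3
    rw [h3, add_zero, ← map_one ρ] at hρz
    exact hzne (hρ hρz)
  have hNc : ∀ g : P, ρ g * N = N * ρ g := by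
    intro g
    rw [hN, mul_sub, sub_mul, mul_one, one_mul, ← map_mul, ← map_mul, hzc]
  have hrank : finrank K (LinearMap.range N) = 1 := by
    have hpos : 0 < finrank K (LinearMap.range N) := by
      rw [Nat.pos_iff_ne_zero]
      intro h3
      rw [Submodule.finrank_eq_zero, LinearMap.range_eq_bot] at h3
      exact hNne h3
    by_contra hne
    have h2r : 2 ≤ finrank K (LinearMap.range N) := by omega
    obtain ⟨j, S, hS, hS1, hS2, hS3⟩ := hKB K V N (by omega) hnil h2r
    refine hKA K V (ρ x) (ρ y) (ρ x⁻¹) (ρ y⁻¹) N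
      (by rw [← map_mul, mul_inv_cancel, map_one]) (by rw [← map_mul, inv_mul_cancel, map_one])
      (by rw [← map_mul, mul_inv_cancel, map_one]) (by rw [← map_mul, inv_mul_cancel, map_one])
      (hNc x) (hNc y) (by rw [← hρz, ← map_mul, hxy, map_mul, map_mul]) S ?_ ?_ ?_ hS1 hS2 hS3
    · rw [hS]
      exact N_K4_inv _ N (hNc x) j
    · rw [hS]
      exact N_K4_inv _ N (hNc y) j
    · rw [hS]
      exact N_K4_inv _ N rfl j
  exact ⟨z, x, hzc x, hrank, hCEN P htf x y z hzxy.symm hzne (hzc x) (hzc y)⟩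

end Pool.Agent.PR
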