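import Pool.Agent.helper5.PR.SpecY
import Pool.Agent.helper43.PR.S_FIN

/-!
# Project pr: (MP_a2a22c_al), module Y-CEN: the central extension with its representation
-/

set_option autoImplicit false

namespace Pool.Agent.PR

open Matrix

theorem Y_CEN_inf {L : Type} [Group L] (k : ℕ) (P : Subgroup L) (hP : NonEmb k P) : Infinite L := by
  obtain ⟨-, -, htf, hne⟩ := hP
  by_contra hfin
  rw [not_infinite_iff_finite] at hfin
  have : Finite P := inferInstance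
  have hsub : ∀ g : P, g = 1 := by
    intro g
    by_contra hg
    exact htf g hg (Nat.card P) Nat.card_pos pow_card_eq_one'
  refine hne ⊤ inferInstance ℚ 1 ?_
  intro x y _
  apply Subtype.ext
  rw [hsub x.1, hsub y.1]

theorem Y_CEN_main (hTOR : S_TOR_stmt) (hNILU : Y_NILU_stmt) (hDET : S_DET_stmt)
    (hMAI : S_MAI_stmt) (n : ℕ) (hn : 3 ≤ n) (Λ : Type) [Group Λ] (hFG : Group.FG Λ)
    (hQ : QuotLe Λ (SLZ n)) (hRF : RF Λ) (E : Type) [Field E] [CharZero E] (ρ : Λ →* GL (Fin n) E)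
    (hρ : (Set.range ρ).Infinite) (P : Subgroup Λ) (hP : NonEmb (n - 1) P) :
    ∃ (m : ℕ) (R : Λ →* SLI n m), 1 ≤ m ∧ Function.Surjective R ∧ Finite R.ker := by
  obtain ⟨e, he, htor⟩ := hTOR n hn Λ hFG hQ hRF E ρ hρ
  -- restriction of ρ to P
  have hinj0 : ∀ x : P, ρ (x : Λ) = 1 → x = 1 := by
    intro x hx
    by_contra hne
    have h1 := htor (x : Λ) hx
    exact hP.2.2.1 x hne e he (Subtype.ext (by simpa using h1))
  let r : P →* Matrix (Fin n) (Fin n) E := (Units.coeHom _).comp (ρ.comp P.subtype)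
  have hr : ∀ x : P, r x = ((ρ (x : Λ) : GL (Fin n) E) : Matrix (Fin n) (Fin n) E) := fun x => rfl
  have hρinj : ∀ x y : P, ρ (x : Λ) = ρ (y : Λ) → x = y := by
    intro x y h
    have h1 : ρ ((x * y⁻¹ : P) : Λ) = 1 := by
      push_cast
      rw [map_mul, map_inv, h, mul_inv_cancel]
    have h2 := hinj0 _ h1
    exact mul_inv_eq_one.1 h2
  have hrinj : Function.Injective r := by
    intro x y h
    rw [hr, hr] at h
    exact hρinj x y (Units.ext h)
  have hdet : ∀ x : P, (r x).det = 1 := by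
    intro x
    have h1 := hDET n hn Λ hFG hQ Eˣ (Matrix.GeneralLinearGroup.det.comp ρ) (x : Λ)
    have h2 := congrArg (fun z : Eˣ => (z : E)) h1
    simpa [hr] using h2
  obtain ⟨t, u, htu, hrk, hpow, huni⟩ := hNILU n hn E P hP r hrinj hdet
  refine hMAI n hn Λ hFG hQ hRF E ρ hρ (t : Λ) (u : Λ) ?_ hrk huni ?_
  · exact congrArg Subtype.val htu
  · intro k hk j h
    refine hpow k hk j (hρinj _ _ ?_)
    push_cast
    rw [map_pow, map_zpow]
    exact h

theorem Y_CEN (hSYS : S_SYS_stmt) (hEXP : S_EXP_stmt) (hEXT : S_EXT_stmt) (hTOR : S_TOR_stmt)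
    (hDET : S_DET_stmt) (hMAI : S_MAI_stmt) (hPULL : Y_PULL_stmt) (hNILU : Y_NILU_stmt)
    (hFG : K_FG_stmt) : Y_CEN_stmt := by
  intro n hn L _ hL hRF hQ P hP
  have hinf : Infinite L := Y_CEN_inf _ P hP
  obtain ⟨S, -, -, -⟩ := hSYS (SLZ n) L (hFG n) hQ (Multiplicative (ZMod 1)) 1
  obtain ⟨p, hp, hU⟩ := hEXP n hn L hL hRF hinf S
  have : Fact p.Prime := ⟨hp⟩
  obtain ⟨Λ, _, π, ρ, h1, h2, h3, hπ, hk, hc, hρ, -⟩ := hEXT n hn L hL hRF S p hU
  obtain ⟨P', hP'⟩ := hPULL Λ L π hπ hk h3 _ P hP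
  obtain ⟨m, R, hm, hR, hRk⟩ := Y_CEN_main hTOR hNILU hDET hMAI n hn Λ h1 h2 h3 ℚ_[p] _
    (S_FIN_range ρ hρ) P' hP'
  exact ⟨Λ, inferInstance, π, m, R, h1, h2, h3, hπ, hc, hm, hR, hRk⟩

end Pool.Agent.PR
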